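import Pool.Agent.W_MP_0bf392_lc.Main

/-!
# MP_0bf392_lc, Q1: mutually embeddable inner models with equal ordinal actions

If there is a measurable cardinal `κ` with `2 ^ κ = κ⁺`, then there are two distinct countably
closed inner models `M` and `N` with elementary embeddings `i : M → N` and `j : N → M` which
agree on the ordinals. The definitions of the statement are in `W_MP_0bf392_lc/Defs.lean`.
-/

universe u

namespace Pool.Agent.Results.MP_0bf392_lc.MutualEmbeddings

theorem result (κ : Cardinal.{u}) (hκ : IM.IsMeasurable κ) (h2 : 2 ^ κ = Order.succ κ) :
    IM.Statement.{u} :=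
  IM.main κ hκ h2

end Pool.Agent.Results.MP_0bf392_lc.MutualEmbeddings
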